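import Pool.Agent.W2helper56.PK.Stm
import Mathlib.MeasureTheory.OuterMeasure.BorelCantelli
import Mathlib.Analysis.SpecificLimits.Normed
import Mathlib.Topology.Algebra.InfiniteSum.ENNReal
import Mathlib.Tactic

/-!
# Project PK, piece D2

The one-way function: expectation, Markov's inequality, the Borel-Cantelli lemma.
-/

set_option autoImplicit false

namespace Pool.Agent.W2helper23.PK

open Pool.Agent.NPC Pool.Agent.H620R2.Gauge MeasureTheory Pool.Agent.W2helper56.PK

/-! ### Probabilities as sums -/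

open Classical in
/-- the indicator of a proposition -/
noncomputable def ind (P : Prop) : ℝ := if P then 1 else 0

theorem ind_nonneg (P : Prop) : 0 ≤ ind P := by
  unfold ind; split_ifs <;> norm_num

theorem ind_le_add {P Q R : Prop} (h : P → Q ∨ R) : ind P ≤ ind Q + ind R := by
  unfold ind
  by_cases hP : P
  · rcases h hP with h | h <;> simp [hP, h] <;> split_ifs <;> norm_num
  · simp only [hP, if_false]
    split_ifs <;> norm_num

theorem prob_eq {α : Type} [Fintype α] (P : α → Prop) :
    prob P = (∑ a, ind (P a)) / Fintype.card α := by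
  classical
  unfold prob ind
  congr 1
  rw [Nat.card_eq_fintype_card, Fintype.card_subtype, Finset.card_eq_sum_ones, Finset.sum_filter]
  push_cast
  rfl

theorem prob_nonneg {α : Type} [Fintype α] (P : α → Prop) : 0 ≤ prob P := by
  unfold prob; positivity

theorem sum_of_prob {α : Type} [Fintype α] [Nonempty α] (P : α → Prop) {c : ℝ} (h : prob P ≤ c) :
    ∑ a, ind (P a) ≤ c * Fintype.card α := by
  rw [prob_eq] at h
  have h1 : (0 : ℝ) < Fintype.card α := by
    exact_mod_cast Fintype.card_pos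
  rwa [div_le_iff₀ h1] at h

/-- Markov's inequality -/
theorem markov {Ω : Type} [Fintype Ω] [Nonempty Ω] (X : Ω → ℝ) (hX : ∀ ω, 0 ≤ X ω) {c B : ℝ}
    (hc : 0 < c) (hB : ∑ ω, X ω ≤ B * Fintype.card Ω) : prob (fun ω => c < X ω) ≤ B / c := by
  have h1 : (0 : ℝ) < Fintype.card Ω := by
    exact_mod_cast Fintype.card_pos
  rw [prob_eq, div_le_iff₀ h1]
  have h2 : ∀ ω, ind (c < X ω) ≤ X ω / c := by
    intro ω
    unfold ind
    split_ifs with h
    · rw [le_div_iff₀ hc]; linarith
    · exact div_nonneg (hX ω) hc.le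
  calc ∑ ω, ind (c < X ω) ≤ ∑ ω, X ω / c := Finset.sum_le_sum fun ω _ => h2 ω
    _ = (∑ ω, X ω) / c := by rw [Finset.sum_div]
    _ ≤ (B * Fintype.card Ω) / c := by gcongr
    _ = B / c * Fintype.card Ω := by ring

/-! ### The experiment as a decision tree -/

/-- reading the value of the one-way function -/
def rd (x : List Bool) : DT (List Bool) (List Bool) :=
  DT.asks ((List.range (3 * x.length)).map fun j => bpos x j)

theorem run_rd (O : Oracle) (x : List Bool) : (rd x).run O = fO O x := by
  rw [rd, DT.run_asks, fO, List.map_map]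
  rfl

theorem length_fO (O : Oracle) (x : List Bool) : (fO O x).length = 3 * x.length := by
  simp [fO]

theorem length_bpos {x : List Bool} {j : ℕ} (h : j ≤ 3 * x.length) :
    (bpos x j).length = 5 * x.length + 2 := by
  unfold bpos
  rw [List.length_cons, length_pairBits, List.length_append, List.length_replicate,
    List.length_replicate]
  omega

theorem le_rd {x : List Bool} {k : ℕ} (h : 3 * x.length ≤ k) : (rd x).Le k := by
  have h1 := DT.le_asks ((List.range (3 * x.length)).map fun j => bpos x j)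
  rw [List.length_map, List.length_range] at h1
  exact DT.Le.mono h h1

theorem all_rd {x : List Bool} {m : ℕ} (h : 5 * x.length + 2 < m) :
    (rd x).All (fun z => z.length < m) := by
  refine DT.all_asks _ fun z hz => ?_
  rw [List.mem_map] at hz
  obtain ⟨j, hj, rfl⟩ := hz
  rw [List.mem_range] at hj
  rw [length_bpos hj.le]
  exact h

/-- the experiment: read `fO x`, run the inverter, read the value of its output, compare -/
def ex (M : Alg) (L n : ℕ) (r x : List Bool) : DT (List Bool) Bool :=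
  (rd x).bind fun y => if y.length = 3 * n then
    (tree M (pairBits r (pairBits (un n) y))).bind fun x' => if x'.length ≤ L then
      (rd x').bind fun y' => DT.ret (decide (y' = y)) else DT.ret false
    else DT.ret false

/-- the length of the input -/
def len (n k : ℕ) : ℕ := 2 * k + 1 + (2 * n + 1 + 3 * n)

theorem length_inp {n k : ℕ} {r y : List Bool} (hr : r.length = k) (hy : y.length = 3 * n) :
    (pairBits r (pairBits (un n) y)).length = len n k := by
  rw [length_pairBits, length_pairBits, hr, hy, List.length_replicate]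
  rfl

theorem ex_run {M : Alg} {L n k : ℕ} {r x : List Bool} (O : Oracle) (hr : r.length = k)
    (hx : x.length = n)
    (hL : ∀ (O : Oracle) (x : List Bool), x.length = len n k → (ac M O x).length ≤ L) :
    (ex M L n r x).run O = true ↔
      fO O (ac M O (pairBits r (pairBits (un n) (fO O x)))) = fO O x := by
  have h1 : (fO O x).length = 3 * n := by rw [length_fO, hx]
  rw [ex, DT.run_bind, run_rd, if_pos h1, DT.run_bind, tree_run,
    if_pos (hL O _ (length_inp hr h1)), DT.run_bind, run_rd, DT.run_ret, decide_eq_true_eq]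

theorem ex_le {M : Alg} {L n k : ℕ} {r x : List Bool} (hr : r.length = k) (hx : x.length = n) :
    (ex M L n r x).Le (3 * n + (M.p.eval (len n k) + (3 * L + 0))) := by
  refine DT.le_bind (fun y => ?_) (le_rd (by omega))
  split_ifs with hy
  · refine DT.le_bind (fun x' => ?_) ?_
    · split_ifs with hx'
      · exact DT.le_bind (fun _ => DT.le_ret _ _) (le_rd (by omega))
      · exact DT.le_ret _ _
    · have := tree_le M (pairBits r (pairBits (un n) y))
      rwa [length_inp hr hy] at this
  · exact DT.le_ret _ _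

theorem ex_all {M : Alg} {L n k m b : ℕ} {r x : List Bool} (hr : r.length = k) (hx : x.length = n)
    (hb : ∀ x : List Bool, x.length = len n k → (tree M x).All fun z => z.length ≤ b)
    (h1 : 5 * n + 2 < m) (h2 : b < m) (h3 : 5 * L + 2 < m) :
    (ex M L n r x).All (fun z => z.length < m) := by
  refine DT.all_bind (fun y => ?_) (all_rd (by omega))
  split_ifs with hy
  · refine DT.all_bind (fun x' => ?_) ?_
    · split_ifs with hx'
      · exact DT.all_bind (fun _ => DT.all_ret _ _) (all_rd (by omega))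
      · exact DT.all_ret _ _
    · exact DT.All.mono (fun z (hz : List.length z ≤ b) => lt_of_le_of_lt hz h2)
        (hb _ (length_inp hr hy))
  · exact DT.all_ret _ _

/-- the inverter as a decision tree, with the coins `r` -/
def inv (M : Alg) (n : ℕ) (r y : List Bool) : DT (List Bool) (List Bool) :=
  if y.length = 3 * n then tree M (pairBits r (pairBits (un n) y)) else DT.ret []

theorem inv_le {M : Alg} {n k : ℕ} {r : List Bool} (hr : r.length = k) (y : List Bool) :
    (inv M n r y).Le (M.p.eval (len n k)) := by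
  unfold inv
  split_ifs with hy
  · have := tree_le M (pairBits r (pairBits (un n) y))
    rwa [length_inp hr hy] at this
  · exact DT.le_ret _ _

/-- the expectation -/
theorem expect (h1 : P_owf1) (h2 : P_hyb) (E Λ : Oracle) (M : Alg) (p : Polynomial ℕ)
    (L n m b : ℕ)
    (hL : ∀ (O : Oracle) (x : List Bool), x.length = len n (p.eval n) → (ac M O x).length ≤ L)
    (hb : ∀ x : List Bool, x.length = len n (p.eval n) → (tree M x).All fun z => z.length ≤ b)
    (hm1 : 5 * n + 2 < m) (hm2 : b < m) (hm3 : 5 * L + 2 < m) :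
    ∑ ω : Pos 0 m → Bool, invPr (fO (Ok E (ext Λ ω))) (ac M (Ok E (ext Λ ω))) p n ≤
      ((((M.p.eval (len n (p.eval n)) : ℕ) : ℝ) + 2) / 2 ^ n +
        ((3 * n + (M.p.eval (len n (p.eval n)) + (3 * L + 0)) : ℕ) : ℝ) / 2 ^ n) *
        Fintype.card (Pos 0 m → Bool) := by
  obtain ⟨O, hO⟩ : ∃ O : (Pos 0 m → Bool) → Oracle, O = fun ω => Ok E (ext Λ ω) := ⟨_, rfl⟩
  obtain ⟨q, hq⟩ : ∃ q, q = M.p.eval (len n (p.eval n)) := ⟨_, rfl⟩
  obtain ⟨N, hN⟩ : ∃ N, N = 3 * n + (q + (3 * L + 0)) := ⟨_, rfl⟩
  rw [← hq, ← hN]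
  have key : ∀ r : Coins (p.eval n),
      ∑ x : Coins n, ∑ ω : Pos 0 m → Bool,
        ind (fO (O ω) (ac M (O ω) (pairBits (List.ofFn r) (pairBits (un n)
          (fO (O ω) (List.ofFn x))))) = fO (O ω) (List.ofFn x)) ≤
      (((q : ℕ) : ℝ) + 2) / 2 ^ n * (Fintype.card (Coins n) * Fintype.card (Pos 0 m → Bool)) +
        ((N : ℕ) : ℝ) / 2 ^ n * (Fintype.card (Coins n) * Fintype.card (Pos 0 m → Bool)) := by
    intro r
    have hr : (List.ofFn r).length = p.eval n := List.length_ofFn
    have e1 := sum_of_prob _ (h1 E Λ n m q (inv M n (List.ofFn r)) hm1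
      (fun y => hq ▸ inv_le hr y))
    rw [Fintype.sum_prod_type, Fintype.card_prod, Nat.cast_mul] at e1
    have e2 : ∀ x : Coins n, ∑ ω : Pos 0 m → Bool,
        ind ((ex M L n (List.ofFn r) (List.ofFn x)).run (O ω) ≠
          (ex M L n (List.ofFn r) (List.ofFn x)).run (blind (5 * n + 2) (O ω))) ≤
        (N : ℝ) / 2 ^ n * Fintype.card (Pos 0 m → Bool) := by
      intro x
      have hx : (List.ofFn x).length = n := List.length_ofFn
      have e3 := h2 E Λ 0 (5 * n + 2) m N Bool (ex M L n (List.ofFn r) (List.ofFn x))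
        (Nat.zero_le _) (by rw [hN, hq]; exact ex_le hr hx) (ex_all hr hx hb hm1 hm2 hm3)
      rw [hO]
      refine sum_of_prob _ (e3.trans ?_)
      gcongr
      · norm_num
      · omega
    have e3 : ∀ (x : Coins n) (ω : Pos 0 m → Bool),
        ind (fO (O ω) (ac M (O ω) (pairBits (List.ofFn r) (pairBits (un n)
          (fO (O ω) (List.ofFn x))))) = fO (O ω) (List.ofFn x)) ≤
        ind (fO (blind (5 * n + 2) (O ω))
          ((inv M n (List.ofFn r) (fO (blind (5 * n + 2) (O ω)) (List.ofFn x))).run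
            (blind (5 * n + 2) (O ω))) = fO (blind (5 * n + 2) (O ω)) (List.ofFn x)) +
        ind ((ex M L n (List.ofFn r) (List.ofFn x)).run (O ω) ≠
          (ex M L n (List.ofFn r) (List.ofFn x)).run (blind (5 * n + 2) (O ω))) := by
      intro x ω
      have hx : (List.ofFn x).length = n := List.length_ofFn
      refine ind_le_add fun h => ?_
      rw [← ex_run (O ω) hr hx hL] at h
      by_cases h4 : (ex M L n (List.ofFn r) (List.ofFn x)).run (O ω) =
          (ex M L n (List.ofFn r) (List.ofFn x)).run (blind (5 * n + 2) (O ω))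
      · left
        rw [h4, ex_run (blind (5 * n + 2) (O ω)) hr hx hL] at h
        rw [inv, if_pos (by rw [length_fO, hx]), tree_run]
        exact h
      · right
        exact h4
    calc _ ≤ ∑ x : Coins n, ∑ ω : Pos 0 m → Bool, (ind (fO (blind (5 * n + 2) (O ω))
          ((inv M n (List.ofFn r) (fO (blind (5 * n + 2) (O ω)) (List.ofFn x))).run
            (blind (5 * n + 2) (O ω))) = fO (blind (5 * n + 2) (O ω)) (List.ofFn x)) +
        ind ((ex M L n (List.ofFn r) (List.ofFn x)).run (O ω) ≠
          (ex M L n (List.ofFn r) (List.ofFn x)).run (blind (5 * n + 2) (O ω)))) :=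
          Finset.sum_le_sum fun x _ => Finset.sum_le_sum fun ω _ => e3 x ω
      _ = (∑ x : Coins n, ∑ ω : Pos 0 m → Bool, ind (fO (blind (5 * n + 2) (O ω))
          ((inv M n (List.ofFn r) (fO (blind (5 * n + 2) (O ω)) (List.ofFn x))).run
            (blind (5 * n + 2) (O ω))) = fO (blind (5 * n + 2) (O ω)) (List.ofFn x))) +
        ∑ x : Coins n, ∑ ω : Pos 0 m → Bool, ind ((ex M L n (List.ofFn r) (List.ofFn x)).run (O ω) ≠
          (ex M L n (List.ofFn r) (List.ofFn x)).run (blind (5 * n + 2) (O ω))) := by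
          simp only [Finset.sum_add_distrib]
      _ ≤ _ := by
          refine add_le_add ?_ ?_
          · rw [hO]; exact e1
          · calc _ ≤ ∑ x : Coins n, (N : ℝ) / 2 ^ n * Fintype.card (Pos 0 m → Bool) :=
                  Finset.sum_le_sum fun x _ => e2 x
              _ = _ := by
                  rw [Finset.sum_const, Finset.card_univ, nsmul_eq_mul]
                  ring
  have c1 : (0 : ℝ) < Fintype.card (Coins n) := by exact_mod_cast Fintype.card_pos
  have c2 : (0 : ℝ) < Fintype.card (Coins (p.eval n)) := by exact_mod_cast Fintype.card_pos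
  have h3 : ∀ ω : Pos 0 m → Bool, invPr (fO (Ok E (ext Λ ω))) (ac M (Ok E (ext Λ ω))) p n =
      (∑ r : Coins (p.eval n), ∑ x : Coins n,
        ind (fO (O ω) (ac M (O ω) (pairBits (List.ofFn r) (pairBits (un n)
          (fO (O ω) (List.ofFn x))))) = fO (O ω) (List.ofFn x))) /
        (Fintype.card (Coins n) * Fintype.card (Coins (p.eval n))) := by
    intro ω
    rw [invPr, prob_eq, Fintype.sum_prod_type, Finset.sum_comm, Fintype.card_prod, Nat.cast_mul, hO]
  simp only [h3]
  rw [← Finset.sum_div, div_le_iff₀ (by positivity), Finset.sum_comm]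
  calc _ ≤ ∑ r : Coins (p.eval n), ((((q : ℕ) : ℝ) + 2) / 2 ^ n *
        (Fintype.card (Coins n) * Fintype.card (Pos 0 m → Bool)) +
        ((N : ℕ) : ℝ) / 2 ^ n * (Fintype.card (Coins n) * Fintype.card (Pos 0 m → Bool))) := by
        refine Finset.sum_le_sum fun r _ => ?_
        rw [Finset.sum_comm]
        exact key r
    _ = _ := by
        rw [Finset.sum_const, Finset.card_univ, nsmul_eq_mul]
        ring

/-! ### Summability -/

theorem summable_poly (Q : Polynomial ℕ) :
    Summable fun n : ℕ => ((Q.eval n : ℕ) : ℝ) * (3 / 4 : ℝ) ^ n := by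
  induction Q using Polynomial.induction_on' with
  | add P Q hP hQ =>
    refine (hP.add hQ).congr fun n => ?_
    rw [Polynomial.eval_add]
    push_cast
    ring
  | monomial k a =>
    have h := (summable_pow_mul_geometric_of_norm_lt_one k
      (r := (3 / 4 : ℝ)) (by norm_num)).mul_left (a : ℝ)
    refine h.congr fun n => ?_
    rw [Polynomial.eval_monomial]
    push_cast
    ring

theorem half_pow (n : ℕ) : (1 : ℝ) / 2 ^ n / (1 / 2 ^ (n / 2)) ≤ (3 / 4) ^ n := by
  have h1 : (2 : ℝ) ^ (n / 2) ≤ (3 / 2) ^ n := by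
    calc (2 : ℝ) ^ (n / 2) ≤ ((3 / 2 : ℝ) ^ 2) ^ (n / 2) := by
          gcongr; norm_num
      _ = (3 / 2 : ℝ) ^ (2 * (n / 2)) := by rw [pow_mul]
      _ ≤ (3 / 2) ^ n := by
          gcongr
          · norm_num
          · omega
  have h2 : (3 / 4 : ℝ) ^ n = (3 / 2) ^ n / 2 ^ n := by
    rw [← div_pow]; norm_num
  have h3 : (1 : ℝ) / 2 ^ n / (1 / 2 ^ (n / 2)) = 2 ^ (n / 2) / 2 ^ n := by
    field_simp
  rw [h2, h3]
  gcongr

/-- D2 -/
theorem p_owf2 (h1 : P_owf1) (h2 : P_hyb) (h3 : P_win) : P_owf2 := by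
  intro E
  have hc1 : Countable (Polynomial ℕ) := CC.poly_countable
  rw [ae_all_iff]
  intro M
  rw [ae_all_iff]
  intro p
  obtain ⟨b, hb⟩ := tree_all M
  obtain ⟨c, hc⟩ := ac_length M
  obtain ⟨Λ, -⟩ : ∃ Λ : Oracle, Λ = fun _ => false := ⟨_, rfl⟩
  -- the polynomials
  obtain ⟨ℓ, hℓ⟩ : ∃ ℓ : Polynomial ℕ, ∀ n, ℓ.eval n = len n (p.eval n) := by
    refine ⟨2 * p + 1 + (2 * Polynomial.X + 1 + 3 * Polynomial.X), fun n => ?_⟩
    simp [len]
  obtain ⟨m, hm⟩ : ∃ m : ℕ → ℕ, ∀ n, 5 * n + 2 < m n ∧ b.eval (ℓ.eval n) < m n ∧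
      5 * c.eval (ℓ.eval n) + 2 < m n :=
    ⟨fun n => 5 * n + 2 + b.eval (ℓ.eval n) + 5 * c.eval (ℓ.eval n) + 3, fun n => by
      dsimp only; omega⟩
  obtain ⟨Q, hQ⟩ : ∃ Q : Polynomial ℕ, ∀ n, Q.eval n =
      M.p.eval (ℓ.eval n) + 2 + (3 * n + (M.p.eval (ℓ.eval n) + (3 * c.eval (ℓ.eval n) + 0))) := by
    refine ⟨M.p.comp ℓ + 2 + (3 * Polynomial.X + (M.p.comp ℓ + (3 * c.comp ℓ + 0))), fun n => ?_⟩
    simp [Polynomial.eval_comp]
  -- the measure of the bad set
  have key : ∀ n : ℕ, ranO {R : Oracle | 1 / 2 ^ (n / 2) < invPr (fO (Ok E R)) (ac M (Ok E R)) p n} ≤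
      ENNReal.ofReal (((Q.eval n : ℕ) : ℝ) * (3 / 4 : ℝ) ^ n) := by
    intro n
    obtain ⟨hm1, hm2, hm3⟩ := hm n
    have hL : ∀ (O : Oracle) (x : List Bool), x.length = len n (p.eval n) →
        (ac M O x).length ≤ c.eval (ℓ.eval n) := fun O x hx => by
      have := hc O x
      rwa [hx, ← hℓ] at this
    have hb' : ∀ x : List Bool, x.length = len n (p.eval n) →
        (tree M x).All fun z => z.length ≤ b.eval (ℓ.eval n) := fun x hx => by
      have := hb x
      rwa [hx, ← hℓ] at this
    have e1 := expect h1 h2 E Λ M p (c.eval (ℓ.eval n)) n (m n) (b.eval (ℓ.eval n)) hL hb'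
      hm1 hm2 hm3
    have e2 := markov (c := 1 / 2 ^ (n / 2)) _ (fun ω => by
      unfold invPr; exact prob_nonneg _) (by positivity) e1
    have hloc : ∀ R R' : Oracle, (∀ u : List Bool, u.length < m n → R u = R' u) →
        ((1 / 2 ^ (n / 2) < invPr (fO (Ok E R)) (ac M (Ok E R)) p n) ↔
          (1 / 2 ^ (n / 2) < invPr (fO (Ok E R')) (ac M (Ok E R')) p n)) := by
      intro R R' hRR
      have e3 : invPr (fO (Ok E R)) (ac M (Ok E R)) p n =
          invPr (fO (Ok E R')) (ac M (Ok E R')) p n := by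
        unfold invPr
        congr 1
        funext t
        have hr : (List.ofFn t.2).length = p.eval n := List.length_ofFn
        have hx : (List.ofFn t.1).length = n := List.length_ofFn
        rw [eq_iff_iff, ← ex_run (Ok E R) hr hx hL, ← ex_run (Ok E R') hr hx hL]
        have e4 := ex_all (M := M) hr hx hb' hm1 hm2 hm3
        have e5 : ∀ z ∈ (ex M (c.eval (ℓ.eval n)) n (List.ofFn t.2) (List.ofFn t.1)).qs (Ok E R),
            Ok E R' z = Ok E R z := by
          intro z hz
          have e6 : z.length < m n := DT.All.qs _ e4 z hz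
          exact (Ok_congr (t := m n) (fun _ _ => rfl) hRR z e6).symm
        rw [(DT.run_congr e5).1]
      rw [e3]
    have e3 := h3 Λ 0 (m n) _ hloc
    have e4 : cyl Λ 0 = Set.univ := by
      ext R
      simp [cyl]
    rw [e4, Set.univ_inter, measure_univ, mul_one] at e3
    rw [e3]
    refine ENNReal.ofReal_le_ofReal (e2.trans ?_)
    rw [← add_div]
    have e5 : (((M.p.eval (len n (p.eval n)) : ℕ) : ℝ) + 2 +
        ((3 * n + (M.p.eval (len n (p.eval n)) + (3 * c.eval (ℓ.eval n) + 0)) : ℕ) : ℝ)) =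
        ((Q.eval n : ℕ) : ℝ) := by
      rw [hQ, ← hℓ]
      push_cast
      ring
    rw [e5]
    calc ((Q.eval n : ℕ) : ℝ) / 2 ^ n / (1 / 2 ^ (n / 2)) =
          ((Q.eval n : ℕ) : ℝ) * (1 / 2 ^ n / (1 / 2 ^ (n / 2))) := by ring
      _ ≤ _ := by
          gcongr
          exact half_pow n
  have hsum : ∑' n : ℕ, ranO {R : Oracle | 1 / 2 ^ (n / 2) <
      invPr (fO (Ok E R)) (ac M (Ok E R)) p n} ≠ ⊤ := by
    refine ne_top_of_le_ne_top ?_ (ENNReal.tsum_le_tsum key)
    exact (summable_poly Q).tsum_ofReal_ne_top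
  filter_upwards [ae_eventually_notMem hsum] with R hR
  filter_upwards [hR] with n hn
  simpa using hn

end Pool.Agent.W2helper23.PK

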